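import Mathlib

/-!
Two-point homogeneous sets. Positions: (column, label, point of a large block).
The two points of a block are chosen by recursion on the label; they look alike over all lower
columns and over all chosen points of smaller label.
-/

set_option autoImplicit false

open Cardinal Order

namespace Pool.Agent.RKH

universe u

/-- recursion with existence -/
theorem exists_rec {Th C : Type u} (r : Th → Th → Prop) (wf : WellFounded r)
    (P : ∀ xi : Th, (∀ eta, r eta xi → C) → C → Prop)
    (h : ∀ xi g, ∃ c, P xi g c) : ∃ x : Th → C, ∀ xi, P xi (fun eta _ => x eta) (x xi) := by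
  choose F hF using h
  refine ⟨wf.fix (fun xi g => F xi g), ?_⟩
  intro xi
  have h1 := hF xi (fun eta _ => wf.fix (fun xi g => F xi g) eta)
  have h2 : wf.fix (fun xi g => F xi g) xi =
      F xi (fun eta _ => wf.fix (fun xi g => F xi g) eta) := wf.fix_eq _ xi
  rw [← h2] at h1
  exact h1

section

variable (A B DD : Type u) [LinearOrder A] [WellFoundedLT A]

/-- sizes of the blocks -/
noncomputable def siz : A → Cardinal.{u} :=
  (wellFounded_lt (α := A)).fix (fun al g =>
    succ (#DD ^ (#(List (Σ x : {x : A // x < al}, B × (g x.1 x.2).out)) *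
      #(List (A × B × Bool)))))

theorem siz_eq (al : A) : siz A B DD al =
    succ (#DD ^ (#(List (Σ x : {x : A // x < al}, B × (siz A B DD x.1).out)) *
      #(List (A × B × Bool)))) := by
  unfold siz
  rw [WellFounded.fix_eq]

/-- positions -/
def Pos : Type u := Σ al : A, B × (siz A B DD al).out

def levP (p : Pos A B DD) : A := p.1

def labP (p : Pos A B DD) : B := p.2.1

/-- a position from its parts -/
def mkP (al : A) (be : B) (b : (siz A B DD al).out) : Pos A B DD := ⟨al, be, b⟩

theorem mkP_inj {al : A} {be : B} {b b' : (siz A B DD al).out}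
    (h : mkP A B DD al be b = mkP A B DD al be b') : b = b' := by
  unfold mkP at h
  have h1 := eq_of_heq (Sigma.mk.inj h).2
  exact (Prod.mk.inj h1).2

theorem card_low (al : A) : #{p : Pos A B DD // levP A B DD p < al} =
    #(Σ x : {x : A // x < al}, B × (siz A B DD x.1).out) := by
  refine mk_congr ?_
  exact
    { toFun := fun p => ⟨⟨p.1.1, p.2⟩, p.1.2⟩
      invFun := fun p => ⟨⟨p.1.1, p.2⟩, p.1.2⟩
      left_inv := fun _ => rfl
      right_inv := fun _ => rfl }

/-- The two-point sets. -/
theorem two_point [LinearOrder B] [WellFoundedLT B] (dd : List (Pos A B DD) → DD) :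
    ∃ x : B → A → Bool → Pos A B DD,
      (∀ be al t, levP A B DD (x be al t) = al ∧ labP A B DD (x be al t) = be) ∧
      (∀ be al, x be al false ≠ x be al true) ∧
      ∀ be al (F : List (Pos A B DD)) (_ : ∀ p ∈ F, levP A B DD p < al)
        (Y : List (B × A × Bool)) (_ : ∀ y ∈ Y, y.1 < be),
        dd (F ++ x be al false :: Y.map (fun y => x y.1 y.2.1 y.2.2)) =
        dd (F ++ x be al true :: Y.map (fun y => x y.1 y.2.1 y.2.2)) := by
  classical
  have hrec := exists_rec (Th := B) (C := A → Bool → Pos A B DD) (· < ·) wellFounded_lt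
    (fun be u c =>
      (∀ al t, levP A B DD (c al t) = al ∧ labP A B DD (c al t) = be) ∧
      (∀ al, c al false ≠ c al true) ∧
      ∀ al (F : List (Pos A B DD)) (_ : ∀ p ∈ F, levP A B DD p < al)
        (Y : List (A × {b : B // b < be} × Bool)),
        dd (F ++ c al false :: Y.map (fun y => u y.2.1.1 y.2.1.2 y.1 y.2.2)) =
        dd (F ++ c al true :: Y.map (fun y => u y.2.1.1 y.2.1.2 y.1 y.2.2))) ?_
  · obtain ⟨x, hx⟩ := hrec
    refine ⟨x, fun be al t => (hx be).1 al t, fun be al => (hx be).2.1 al, ?_⟩
    intro be al F hF Y hY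
    let Y' : List (A × {b : B // b < be} × Bool) :=
      Y.attach.map (fun y => (y.1.2.1, ⟨y.1.1, hY y.1 y.2⟩, y.1.2.2))
    have h := (hx be).2.2 al F hF Y'
    have e : Y'.map (fun y => x y.2.1.1 y.1 y.2.2) = Y.map (fun y => x y.1 y.2.1 y.2.2) := by
      simp only [Y', List.map_map]
      conv_rhs => rw [← List.attach_map_subtype_val Y]
      rw [List.map_map]
      rfl
    rw [e] at h
    exact h
  · intro be u
    have key : ∀ al : A, ∃ p : (siz A B DD al).out × (siz A B DD al).out, p.1 ≠ p.2 ∧
        ∀ (F : List (Pos A B DD)) (_ : ∀ p ∈ F, levP A B DD p < al)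
        (Y : List (A × {b : B // b < be} × Bool)),
        dd (F ++ mkP A B DD al be p.1 ::
          Y.map (fun y => u y.2.1.1 y.2.1.2 y.1 y.2.2)) =
        dd (F ++ mkP A B DD al be p.2 ::
          Y.map (fun y => u y.2.1.1 y.2.1.2 y.1 y.2.2)) := by
      intro al
      let phi : (siz A B DD al).out → (List {p : Pos A B DD // levP A B DD p < al} ×
          List (A × {b : B // b < be} × Bool) → DD) := fun b q =>
        dd (q.1.map Subtype.val ++ mkP A B DD al be b ::
          q.2.map (fun y => u y.2.1.1 y.2.1.2 y.1 y.2.2))
      have hDD : #DD ≠ 0 := by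
        rw [mk_ne_zero_iff]
        exact ⟨dd []⟩
      have hcard : #(List {p : Pos A B DD // levP A B DD p < al} ×
          List (A × {b : B // b < be} × Bool) → DD) < siz A B DD al := by
        rw [siz_eq, lt_succ_iff, ← power_def, mk_prod, lift_id, lift_id]
        refine power_le_power_left hDD (mul_le_mul' ?_ ?_)
        · obtain ⟨e⟩ := Cardinal.eq.mp (card_low A B DD al)
          exact mk_le_of_injective (f := List.map e) (List.map_injective_iff.mpr e.injective)
        · let j : A × {b : B // b < be} × Bool → A × B × Bool := fun y => (y.1, y.2.1.1, y.2.2)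
          have hj : Function.Injective j := by
            rintro ⟨a, ⟨b, hb⟩, t⟩ ⟨a', ⟨b', hb'⟩, t'⟩ h
            simp only [j, Prod.mk.injEq] at h
            obtain ⟨rfl, rfl, rfl⟩ := h
            rfl
          exact mk_le_of_injective (f := List.map j) (List.map_injective_iff.mpr hj)
      have hni : ¬ Function.Injective phi := by
        intro hinj
        have h1 := mk_le_of_injective hinj
        rw [mk_out] at h1
        exact absurd h1 (not_le.mpr hcard)
      rw [Function.Injective] at hni
      push Not at hni
      obtain ⟨b1, b2, h1, h2⟩ := hni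
      refine ⟨(b1, b2), h2, ?_⟩
      intro F hF Y
      have h3 := congrFun h1 (F.attach.map (fun p => ⟨p.1, hF p.1 p.2⟩), Y)
      simp only [phi, List.map_map] at h3
      have e : (F.attach.map (Subtype.val ∘ fun p : {x // x ∈ F} =>
          (⟨p.1, hF p.1 p.2⟩ : {p : Pos A B DD // levP A B DD p < al}))) = F := by
        conv_rhs => rw [← List.attach_map_subtype_val F]
        rfl
      rw [e] at h3
      exact h3
    choose p hp1 hp2 using key
    refine ⟨fun al t => mkP A B DD al be (if t then (p al).2 else (p al).1), ?_, ?_, ?_⟩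
    · intro al t
      exact ⟨rfl, rfl⟩
    · intro al h
      apply hp1 al
      have h1 := mkP_inj A B DD h
      simpa using h1
    · intro al F hF Y
      exact hp2 al F hF Y

end

end Pool.Agent.RKH
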