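import Mathlib

/-!
A regressive pigeonhole lemma together with an independent family.  For a well-order La and
types I, Lam there are a large well-order LL, a type MM and sets gg m of levels (m : MM) such that

* every subset of a copy of La in LL is the trace of some gg m;
* every assignment of an I-indexed family of elements of LL x MM below a to every a in LL is
  constant on a copy of La.
-/

set_option autoImplicit false

open Cardinal

namespace Pool.Agent.RKH

universe u

/-- codes -/
inductive TT (La I Lam : Type u) : Type u
  | leaf : TT La I Lam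
  | mk (lab : Lam) (S : Set I) (j : La) (c : I → TT La I Lam) (s : I → La × La → TT La I Lam)
      (z : I → Set (Set (La × La))) : TT La I Lam

variable (La I Lam : Type u)

/-- The large well-order. -/
abbrev LL : Type u := (#(Set (TT La I Lam))).ord.ToType

/-- The index type of the family of sets of levels. -/
abbrev MM : Type u := (La × La → TT La I Lam) × Set (Set (La × La))

variable {La I Lam}

theorem LL_card : #(LL La I Lam) = #(Set (TT La I Lam)) := by simp

/-- Subsets of TT instead of levels. -/
noncomputable def setOf' : LL La I Lam ≃ Set (TT La I Lam) :=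
  (Cardinal.eq.1 (LL_card (La := La) (I := I) (Lam := Lam))).some

/-- The family of sets of levels. -/
def gg (m : MM La I Lam) : Set (LL La I Lam) :=
  {a | {q | m.1 q ∈ setOf' a} ∈ m.2}

/-- All traces on small sets. -/
theorem exists_trace (j : La → LL La I Lam) (hj : Function.Injective j) (Z : Set La) :
    ∃ m : MM La I Lam, ∀ x, j x ∈ gg m ↔ x ∈ Z := by
  classical
  have h1 : ∀ q : La × La, ∃ t : TT La I Lam, q.1 ≠ q.2 →
      ¬ (t ∈ setOf' (j q.1) ↔ t ∈ setOf' (j q.2)) := by
    intro q
    by_cases hq : q.1 = q.2
    · exact ⟨TT.leaf, fun h => absurd hq h⟩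
    · have h2 : setOf' (j q.1) ≠ setOf' (j q.2) := fun h => hq (hj (setOf'.injective h))
      by_contra hcon
      push Not at hcon
      exact h2 (Set.ext fun t => (hcon t).2)
  choose s hs using h1
  let tr : La → Set (La × La) := fun x => {q | s q ∈ setOf' (j x)}
  have htr : Function.Injective tr := by
    intro x y hxy
    by_contra hne
    refine hs (x, y) hne ?_
    exact Set.ext_iff.1 hxy (x, y)
  refine ⟨(s, tr '' Z), fun x => ?_⟩
  change tr x ∈ tr '' Z ↔ x ∈ Z
  exact htr.mem_set_image

/-- A big well-ordered set contains a copy of a small one. -/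
theorem exists_copy [LinearOrder La] [WellFoundedLT La] {L : Type u} [LinearOrder L]
    [WellFoundedLT L] (X : Set L) (h : ¬ #X ≤ #La) : ∃ j : La → L, StrictMono j ∧ ∀ x, j x ∈ X := by
  have hA : #La < #X := not_le.1 h
  have hle : Ordinal.type (α := La) (· < ·) ≤ Ordinal.type (α := X) (· < ·) := by
    by_contra hlt
    have h1 := Ordinal.card_le_card (le_of_lt (not_le.1 hlt))
    rw [Ordinal.card_type, Ordinal.card_type] at h1
    exact absurd hA (not_lt.2 h1)
  obtain ⟨g⟩ := Ordinal.type_le_iff'.1 hle
  exact ⟨fun a => (g a).1, fun a b hab => g.map_rel_iff.2 hab, fun a => (g a).2⟩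

/-- The regressive pigeonhole lemma. -/
theorem exists_const [LinearOrder La] [WellFoundedLT La]
    (Phi : LL La I Lam → I → Option (LL La I Lam × MM La I Lam)) (lab : LL La I Lam → Lam)
    (hPhi : ∀ a i p, Phi a i = some p → p.1 < a) :
    ∃ (j : La → LL La I Lam) (phi : I → Option (LL La I Lam × MM La I Lam)) (l : Lam),
      StrictMono j ∧ ∀ x, Phi (j x) = phi ∧ lab (j x) = l := by
  classical
  by_contra hcon
  let X : (I → Option (LL La I Lam × MM La I Lam)) × Lam → Set (LL La I Lam) :=
    fun v => {a | (Phi a, lab a) = v}
  have h1 : ∀ v, ∃ e : X v → La, Function.Injective e := by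
    intro v
    by_contra h2
    have h3 : ¬ #(X v) ≤ #La := fun h4 => h2 ⟨h4.some, h4.some.injective⟩
    obtain ⟨j, hj, hjX⟩ := exists_copy (X v) h3
    refine hcon ⟨j, v.1, v.2, hj, fun x => ?_⟩
    have h4 : (Phi (j x), lab (j x)) = v := hjX x
    exact ⟨congrArg Prod.fst h4, congrArg Prod.snd h4⟩
  choose e he using h1
  let idx : LL La I Lam → La := fun a => e (Phi a, lab a) ⟨a, rfl⟩
  have hidx : ∀ a b, Phi a = Phi b → lab a = lab b → idx a = idx b → a = b := by
    intro a b h2 h3 h4
    have h5 : ∀ v (hv : (Phi b, lab b) = v), e (Phi b, lab b) ⟨b, rfl⟩ = e v ⟨b, hv⟩ := by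
      intro v hv
      subst hv
      rfl
    have h6 : (Phi b, lab b) = (Phi a, lab a) := by rw [h2, h3]
    have h7 : e (Phi a, lab a) ⟨a, rfl⟩ = e (Phi a, lab a) ⟨b, h6⟩ := by
      rw [← h5 _ h6]
      exact h4
    exact congrArg Subtype.val (he _ h7)
  let step : (a : LL La I Lam) → ((b : LL La I Lam) → b < a → TT La I Lam) → TT La I Lam :=
    fun a rec => TT.mk (lab a) {i | (Phi a i).isSome} (idx a)
      (fun i => (Phi a i).elim TT.leaf (fun p => if h : p.1 < a then rec p.1 h else TT.leaf))
      (fun i => (Phi a i).elim (fun _ => TT.leaf) (fun p => p.2.1))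
      (fun i => (Phi a i).elim ∅ (fun p => p.2.2))
  let code : LL La I Lam → TT La I Lam :=
    WellFounded.fix (wellFounded_lt (α := LL La I Lam)) step
  have hcode : ∀ a, code a = step a (fun b _ => code b) := fun a => WellFounded.fix_eq _ _ _
  have hinj : ∀ a b, code a = code b → a = b := by
    intro a
    induction a using WellFoundedLT.induction with
    | ind a ih =>
      intro b hab
      rw [hcode a, hcode b] at hab
      obtain ⟨e1, e2, e3, e4, e5, e6⟩ := TT.mk.inj hab
      refine hidx a b ?_ e1 e3
      funext i
      have f4 := congrFun e4 i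
      have f5 := congrFun e5 i
      have f6 := congrFun e6 i
      have f2 := Set.ext_iff.1 e2 i
      simp only [Set.mem_ofPred_eq] at f2
      cases hA : Phi a i with
      | none =>
        cases hB : Phi b i with
        | none => rfl
        | some p => rw [hA, hB] at f2; simp at f2
      | some p =>
        cases hB : Phi b i with
        | none => rw [hA, hB] at f2; simp at f2
        | some p' =>
          have hp := hPhi a i p hA
          have hp' := hPhi b i p' hB
          simp only [hA, hB, Option.elim_some, dif_pos hp, dif_pos hp'] at f4 f5 f6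
          have f7 : p.1 = p'.1 := ih p.1 hp p'.1 f4
          have f8 : p.2 = p'.2 := Prod.ext f5 f6
          rw [Prod.ext f7 f8]
  have h8 := mk_le_of_injective (f := code) (fun a b h => hinj a b h)
  rw [LL_card, mk_set] at h8
  exact absurd (cantor #(TT La I Lam)) (not_lt.2 h8)

end Pool.Agent.RKH
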