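import Pool.Agent.RKH.Core
import Pool.Agent.RKH.Reg

/-!
The combinatorial core for infinite graphs with one persistent type: for every type C of colours,
every type K and every ordinal o there is a well-order L such that for every colouring D there are
two colours for which the empty list is o-good and every graph with one persistent type and at most
#K vertices is realized.
-/

set_option autoImplicit false

open Cardinal

namespace Pool.Agent.RKH

universe u

/-- One persistent type: the vertex set is divided into a well-ordered sequence of finite pieces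
(the fibres of b), and every vertex is joined to all or to none of the vertices in later
pieces. -/
def OneType {W : Type u} (H : SimpleGraph W) : Prop :=
  ∃ (B : Type u) (_ : LinearOrder B) (_ : WellFoundedLT B) (b : W → B),
    (∀ n, {v | b v = n}.Finite) ∧
    ∀ x y z, b x < b y → b x < b z → (H.Adj x y ↔ H.Adj x z)

section

variable {L C A La : Type u}

/-- A homogeneous copy of H. -/
def Copy [LT L] (D : L → Set L → L → C) (cc : Bool → C) {W : Type u} (H : SimpleGraph W) :
    Prop :=
  ∃ (a : W → L) (e : W → Set L), Function.Injective a ∧ ∀ x y, a x < a y →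
    (a y ∈ e x ↔ H.Adj x y) ∧ ∀ t : Bool, (t = true ↔ H.Adj x y) → D (a x) (e x) (a y) = cc t

/-- Every list of new vertices can be put below a good list. -/
theorem exists_out [LinearOrder A] (D : La → Set La → La → C) (lev : La → A) (cc : Bool → C)
    {W : Type u} (R : W → W → Bool) : ∀ (ws : List W) (cur : List (W × La)),
      LGood D lev cc (ws.length : Ordinal.{u}) (cur.map Prod.snd) →
      ∃ out : List (W × La × Set La), (∀ w ∈ ws, ∃ e ∈ out, e.1 = w) ∧
        (∀ e ∈ out, ∀ q ∈ cur, lev e.2.1 < lev q.2 ∧ (q.2 ∈ e.2.2 ↔ R e.1 q.1 = true) ∧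
          D e.2.1 e.2.2 q.2 = cc (R e.1 q.1)) ∧
        out.Pairwise (fun e q => lev e.2.1 < lev q.2.1 ∧ (q.2.1 ∈ e.2.2 ↔ R e.1 q.1 = true) ∧
          D e.2.1 e.2.2 q.2.1 = cc (R e.1 q.1)) := by
  intro ws
  induction ws with
  | nil =>
    intro cur _
    exact ⟨[], by simp, by simp, List.Pairwise.nil⟩
  | cons w ws ih =>
    intro cur hcur
    rw [lgood_iff] at hcur
    obtain ⟨c, e, hF, hG⟩ := hcur (ws.length : Ordinal.{u})
      (by exact_mod_cast Nat.lt_succ_self ws.length) (cur.map (fun q => R w q.1)) (by simp)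
    unfold Fits at hF
    rw [List.forall₂_map_left_iff, List.forall₂_map_right_iff, List.forall₂_same] at hF
    obtain ⟨out, h1, h2, h3⟩ := ih ((w, c) :: cur) hG
    refine ⟨out ++ [(w, c, e)], ?_, ?_, ?_⟩
    · intro v hv
      rcases List.mem_cons.1 hv with rfl | hv
      · exact ⟨(v, c, e), by simp, rfl⟩
      · obtain ⟨p, hp, hpv⟩ := h1 v hv
        exact ⟨p, by simp [hp], hpv⟩
    · intro p hp q hq
      rcases List.mem_append.1 hp with hp | hp
      · exact h2 p hp q (List.mem_cons_of_mem _ hq)
      · rw [List.mem_singleton] at hp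
        subst hp
        exact hF q hq
    · rw [List.pairwise_append]
      refine ⟨h3, List.pairwise_singleton _ _, ?_⟩
      intro p hp q hq
      rw [List.mem_singleton] at hq
      subst hq
      exact h2 p hp (w, c) (by simp)

end

section

variable {L M C B : Type u} [LinearOrder L] [LinearOrder B] (g : M → Set L)
  (D : L → Set L → L → C) (cc : Bool → C) {W : Type u} (H : SimpleGraph W) (b : W → B)

/-- The persistent relation of a vertex. -/
def Bit (x : W) : Prop := ∃ y, b x < b y ∧ H.Adj x y

/-- A homogeneous copy of an initial segment of the sequence of pieces. -/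
def Valid (p : W → Option (L × M)) : Prop :=
  (∀ u v x, p v = some x → b u ≤ b v → ∃ y, p u = some y) ∧
    ∀ u v x y, p u = some x → p v = some y → u ≠ v →
      x.1 ≠ y.1 ∧ (x.1 < y.1 → (y.1 ∈ g x.2 ↔ H.Adj u v) ∧
        ∀ t : Bool, (t = true ↔ H.Adj u v) → D x.1 (g x.2) y.1 = cc t)

/-- a is a top of p. -/
def Topped (a : L) (p : W → Option (L × M)) : Prop :=
  ∀ v x, p v = some x → x.1 < a ∧ (a ∈ g x.2 ↔ Bit H b v) ∧
    ∀ t : Bool, (t = true ↔ Bit H b v) → D x.1 (g x.2) a = cc t

/-- p cannot be extended below a. -/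
def Stuck (a : L) (p : W → Option (L × M)) : Prop :=
  ∀ p' : W → Option (L × M), Valid g D cc H b p' → Topped g D cc H b a p' →
    (∀ v x, p v = some x → p' v = some x) → ∀ v x, p' v = some x → p v = some x

variable {g D cc H b}

/-- A maximal state below a; it is not everything. -/
theorem exists_stuck (hno : ¬ Copy D cc H) (a : L) :
    ∃ p : W → Option (L × M), Valid g D cc H b p ∧ Topped g D cc H b a p ∧
      Stuck g D cc H b a p ∧ ∃ v, p v = none := by
  classical
  let X : Type u := {p : W → Option (L × M) // Valid g D cc H b p ∧ Topped g D cc H b a p}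
  obtain ⟨m, hm⟩ := exists_maximal_of_chains_bounded
    (r := fun p q : X => ∀ v x, p.1 v = some x → q.1 v = some x)
    (by
      intro c hc
      let P : W → Option (L × M) := fun v =>
        if h : ∃ x, ∃ p ∈ c, p.1 v = some x then some h.choose else none
      have hP : ∀ v x, P v = some x → ∃ p ∈ c, p.1 v = some x := by
        intro v x hx
        by_cases h : ∃ x, ∃ p ∈ c, p.1 v = some x
        · simp only [P, dif_pos h] at hx
          rw [← Option.some.inj hx]
          exact h.choose_spec
        · simp only [P, dif_neg h] at hx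
          exact absurd hx (by simp)
      have hP2 : ∀ p ∈ c, ∀ v x, p.1 v = some x → P v = some x := by
        intro p hp v x hx
        have h : ∃ x, ∃ p ∈ c, p.1 v = some x := ⟨x, p, hp, hx⟩
        simp only [P, dif_pos h]
        obtain ⟨q, hq, hqx⟩ := h.choose_spec
        rcases eq_or_ne p q with rfl | hne
        · rw [← hqx, hx]
        · rcases hc hp hq hne with h1 | h1
          · rw [← hqx, h1 v x hx]
          · rw [← hx, h1 v _ hqx]
      refine ⟨⟨P, ⟨?_, ?_⟩, ?_⟩, hP2⟩
      · intro u v x hx huv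
        obtain ⟨p, hp, hpx⟩ := hP v x hx
        obtain ⟨y, hy⟩ := p.2.1.1 u v x hpx huv
        exact ⟨y, hP2 p hp u y hy⟩
      · intro u v x y hx hy huv
        obtain ⟨p, hp, hpx⟩ := hP u x hx
        obtain ⟨q, hq, hqy⟩ := hP v y hy
        rcases eq_or_ne p q with rfl | hne
        · exact p.2.1.2 u v x y hpx hqy huv
        · rcases hc hp hq hne with h1 | h1
          · exact q.2.1.2 u v x y (h1 u x hpx) hqy huv
          · exact p.2.1.2 u v x y hpx (h1 v y hqy) huv
      · intro v x hx
        obtain ⟨p, hp, hpx⟩ := hP v x hx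
        exact p.2.2 v x hpx)
    (fun h1 h2 v x hx => h2 v x (h1 v x hx))
  refine ⟨m.1, m.2.1, m.2.2, fun p' h1 h2 h3 => hm ⟨p', h1, h2⟩ h3, ?_⟩
  by_contra hcon
  have hex : ∀ v, ∃ x, m.1 v = some x := by
    intro v
    cases h : m.1 v with
    | none => exact absurd ⟨v, h⟩ hcon
    | some x => exact ⟨x, rfl⟩
  choose f hf using hex
  have hrel := fun u v (huv : u ≠ v) => m.2.1.2 u v _ _ (hf u) (hf v) huv
  refine hno ⟨fun v => (f v).1, fun v => g (f v).2, ?_, ?_⟩
  · intro u v huv
    by_contra hne
    exact (hrel u v hne).1 huv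
  · intro u v huv
    have hne : u ≠ v := by
      rintro rfl
      exact lt_irrefl _ huv
    exact (hrel u v hne).2 huv

end

/-- A lexicographic well-order. -/
theorem exists_lex {K X : Type u} [LinearOrder K] [WellFoundedLT K] (lev : X → K) :
    ∃ (_ : LinearOrder X) (_ : WellFoundedLT X), ∀ x y : X, lev x < lev y → x < y := by
  let r : X → X → Prop := Order.Preimage (fun x => (lev x, x)) (Prod.Lex (· < ·) WellOrderingRel)
  have hinj : Function.Injective (fun x : X => (lev x, x)) := fun x y h => (Prod.mk.inj h).2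
  have : IsWellOrder X r :=
    (RelEmbedding.preimage ⟨_, hinj⟩ (Prod.Lex (· < ·) WellOrderingRel)).isWellOrder
  let _ := IsWellOrder.linearOrder r
  refine ⟨inferInstance, ⟨(inferInstance : IsWellOrder X r).wf⟩, fun x y h => ?_⟩
  exact Prod.Lex.left _ _ h

theorem lgood_mono {La A C : Type u} [LinearOrder A] {D : La → Set La → La → C} {lev : La → A}
    {cc : Bool → C} {o o1 : Ordinal.{u}} (h1 : o1 ≤ o) {l : List La}
    (h : LGood D lev cc o l) : LGood D lev cc o1 l := by
  rw [lgood_iff] at h ⊢
  intro o' ho' s hs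
  exact h o' (lt_of_lt_of_le ho' h1) s hs

theorem sum_core (C K : Type u) (o : Ordinal.{u}) :
    ∃ (L : Type u) (_ : LinearOrder L) (_ : WellFoundedLT L), ∀ D : L → Set L → L → C,
      ∃ cc : Bool → C, LGood D (id : L → L) cc o [] ∧
        ∀ (W : Type u) (H : SimpleGraph W), Nonempty (W ↪ K) → OneType H → Copy D cc H := by
  classical
  obtain ⟨A, _, _, La, lev, hcore⟩ := core C (max o Ordinal.omega0)
  obtain ⟨_, _, hlex⟩ := exists_lex lev
  let I : Type u := (Bool → C) × K
  let Lam : Type u := PUnit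
  refine ⟨LL La I Lam, inferInstance, inferInstance, fun D => ?_⟩
  by_contra hcon
  -- the bad colour pairs
  let Bad : (Bool → C) → Prop := fun cc => ∃ (W : Type u) (H : SimpleGraph W),
    Nonempty (W ↪ K) ∧ OneType H ∧ ¬ Copy D cc H
  have hbad : ∀ cc, LGood D (id : LL La I Lam → LL La I Lam) cc o [] → Bad cc := by
    intro cc hcc
    by_contra hB
    refine hcon ⟨cc, hcc, fun W H hK hH => ?_⟩
    by_contra hno
    exact hB ⟨W, H, hK, hH, hno⟩
  have hch : ∀ cc, ∃ (W : Type u) (H : SimpleGraph W) (B : Type u) (_ : LinearOrder B)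
      (_ : WellFoundedLT B) (b : W → B) (en : W → K),
      Function.Injective en ∧ (∀ n, {v | b v = n}.Finite) ∧
      (∀ x y z, b x < b y → b x < b z → (H.Adj x y ↔ H.Adj x z)) ∧
      (Bad cc → ¬ Copy D cc H) := by
    intro cc
    by_cases hB : Bad cc
    · obtain ⟨W, H, ⟨en⟩, ⟨B, i1, i2, b, hb1, hb2⟩, hno⟩ := hB
      exact ⟨W, H, B, i1, i2, b, en, en.injective, hb1, hb2, fun _ => hno⟩
    · exact ⟨PEmpty, ⊥, PUnit, inferInstance, inferInstance, fun x => x.elim, fun x => x.elim,
        fun x => x.elim, fun n => Set.toFinite _, fun x => x.elim, fun h => absurd h hB⟩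
  choose W H B iB1 iB2 b en hen hb1 hb2 hno using hch
  -- the maximal states
  have hst : ∀ (a : LL La I Lam) (cc : Bool → C), ∃ p : W cc → Option (LL La I Lam × MM La I Lam),
      Bad cc → Valid gg D cc (H cc) (b cc) p ∧ Topped gg D cc (H cc) (b cc) a p ∧
        Stuck gg D cc (H cc) (b cc) a p ∧ ∃ v, p v = none := by
    intro a cc
    by_cases hB : Bad cc
    · obtain ⟨p, h⟩ := exists_stuck (g := gg) (b := b cc) (hno cc hB) a
      exact ⟨p, fun _ => h⟩
    · exact ⟨fun _ => none, fun h => absurd h hB⟩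
  choose p hkp using hst
  let Phi : LL La I Lam → I → Option (LL La I Lam × MM La I Lam) := fun a i =>
    if h : Bad i.1 ∧ ∃ v, en i.1 v = i.2 then p a i.1 h.2.choose else none
  have hPhi : ∀ a i q, Phi a i = some q → q.1 < a := by
    intro a i q hq
    by_cases h : Bad i.1 ∧ ∃ v, en i.1 v = i.2
    · simp only [Phi, dif_pos h] at hq
      exact ((hkp a i.1 h.1).2.1 _ q hq).1
    · simp [Phi, dif_neg h] at hq
  have hPhi' : ∀ a cc (_ : Bad cc) v, Phi a (cc, en cc v) = p a cc v := by
    intro a cc hB v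
    have h : Bad cc ∧ ∃ w, en cc w = en cc v := ⟨hB, v, rfl⟩
    have h1 : h.2.choose = v := hen cc h.2.choose_spec
    change (if h : Bad cc ∧ ∃ w, en cc w = en cc v then p a cc h.2.choose else none) = _
    rw [dif_pos h, h1]
  obtain ⟨j, phi, l, hj, hconst⟩ := exists_const Phi (fun _ => PUnit.unit) hPhi
  choose xi hxi using fun Z : Set La => exists_trace j hj.injective Z
  let D' : La → Set La → La → C := fun c e a => D (j c) (gg (xi e)) (j a)
  obtain ⟨cc, hcc⟩ := hcore D'
  -- transfer of goodness
  have htr : ∀ (o : Ordinal.{u}) (l : List La), LGood D' lev cc o l →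
      LGood D (id : LL La I Lam → LL La I Lam) cc o (l.map j) := by
    intro o
    induction o using WellFoundedLT.induction with
    | _ o ih =>
      intro l hl
      rw [lgood_iff] at hl ⊢
      intro o' ho' s hs
      rw [List.length_map] at hs
      obtain ⟨c, e, hF, hG⟩ := hl o' ho' s hs
      refine ⟨j c, gg (xi e), ?_, ih o' ho' (c :: l) hG⟩
      unfold Fits at hF ⊢
      rw [List.forall₂_map_left_iff]
      refine hF.imp ?_
      rintro x t ⟨h1, h2, h3⟩
      exact ⟨hj (hlex _ _ h1), (hxi e x).trans h2, h3⟩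
  have hB : Bad cc := hbad cc (lgood_mono (le_max_left _ _) (htr _ [] hcc))
  -- the constant state
  have hp : ∀ x y : La, p (j x) cc = p (j y) cc := by
    intro x y
    funext v
    rw [← hPhi' (j x) cc hB v, ← hPhi' (j y) cc hB v, (hconst x).1, (hconst y).1]
  have hgo := hcc
  rw [lgood_iff] at hgo
  obtain ⟨t0, _, -, -⟩ := hgo 0 (lt_of_lt_of_le Ordinal.omega0_pos (le_max_right _ _)) [] rfl
  obtain ⟨P, hP⟩ : ∃ P, P = p (j t0) cc := ⟨_, rfl⟩
  have hall : ∀ x : La, Valid gg D cc (H cc) (b cc) P ∧ Topped gg D cc (H cc) (b cc) (j x) P ∧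
      Stuck gg D cc (H cc) (b cc) (j x) P ∧ ∃ v, P v = none := by
    intro x
    have h := hkp (j x) cc hB
    rw [hp x t0, ← hP] at h
    exact h
  -- the next piece
  have hne : {k | ∃ v, b cc v = k ∧ P v = none}.Nonempty := by
    obtain ⟨v, hv⟩ := (hall t0).2.2.2
    exact ⟨_, v, rfl, hv⟩
  obtain ⟨k0, ⟨v0, hv0, hv0n⟩, hk0⟩ : ∃ k0, (∃ v, b cc v = k0 ∧ P v = none) ∧
      ∀ u, b cc u < k0 → ∃ x, P u = some x := by
    refine ⟨wellFounded_lt.min _ hne, wellFounded_lt.min_mem _ hne, fun u hu => ?_⟩
    cases h : P u with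
    | none =>
      have h1 : b cc u ∈ {k | ∃ v, b cc v = k ∧ P v = none} := ⟨u, rfl, h⟩
      exact absurd hu (wellFounded_lt.not_lt_min _ h1)
    | some x => exact ⟨x, rfl⟩
  have hsome : ∀ v x, P v = some x → b cc v < k0 := by
    intro v x hx
    by_contra h
    obtain ⟨y, hy⟩ := (hall t0).1.1 v0 v x hx (by rw [hv0]; exact not_lt.1 h)
    rw [hv0n] at hy
    exact absurd hy (by simp)
  obtain ⟨us, hus⟩ : ∃ us : List (W cc), ∀ v, v ∈ us ↔ b cc v = k0 := by
    refine ⟨(hb1 cc k0).toFinset.toList, fun v => ?_⟩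
    rw [Finset.mem_toList, Set.Finite.mem_toFinset]
    rfl
  obtain ⟨t, _, -, ht⟩ := hgo (us.length : Ordinal.{u})
    (lt_of_lt_of_le (Ordinal.natCast_lt_omega0 _) (le_max_right _ _)) [] rfl
  let R : Option (W cc) → Option (W cc) → Bool := fun x y =>
    match x, y with
    | some x, some y => decide ((H cc).Adj x y)
    | some x, none => decide (Bit (H cc) (b cc) x)
    | none, _ => false
  obtain ⟨out, ho1, ho2, ho3⟩ := exists_out D' lev cc R (us.map some) [(none, t)]
    (by simpa using ht)
  have hex : ∀ v : W cc, ∃ q : Option (W cc) × La × Set La, b cc v = k0 →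
      q ∈ out ∧ q.1 = some v := by
    intro v
    by_cases hv : b cc v = k0
    · obtain ⟨q, hq1, hq2⟩ := ho1 (some v) (List.mem_map_of_mem ((hus v).2 hv))
      exact ⟨q, fun _ => ⟨hq1, hq2⟩⟩
    · exact ⟨(none, t, ∅), fun h => absurd h hv⟩
  choose q hq using hex
  let P' : W cc → Option (LL La I Lam × MM La I Lam) := fun v =>
    if b cc v = k0 then some (j (q v).2.1, xi (q v).2.2) else P v
  have hnew : ∀ v, b cc v = k0 → P' v = some (j (q v).2.1, xi (q v).2.2) := by
    intro v hv
    simp only [P', if_pos hv]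
  have hold : ∀ v, b cc v ≠ k0 → P' v = P v := by
    intro v hv
    simp only [P', if_neg hv]
  have hbit : ∀ u v, b cc u < b cc v → ((H cc).Adj u v ↔ Bit (H cc) (b cc) u) := by
    intro u v huv
    constructor
    · intro h
      exact ⟨v, huv, h⟩
    · rintro ⟨w, hw, h⟩
      exact (hb2 cc u v w huv hw).2 h
  -- relations between new vertices
  have hnn : ∀ u v, b cc u = k0 → b cc v = k0 → u ≠ v →
      (lev (q u).2.1 < lev (q v).2.1 ∧ ((q v).2.1 ∈ (q u).2.2 ↔ (H cc).Adj u v) ∧
        D' (q u).2.1 (q u).2.2 (q v).2.1 = cc (decide ((H cc).Adj u v))) ∨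
      (lev (q v).2.1 < lev (q u).2.1) := by
    intro u v hu hv huv
    obtain ⟨hu1, hu2⟩ := hq u hu
    obtain ⟨hv1, hv2⟩ := hq v hv
    have hne : q u ≠ q v := by
      intro h
      rw [h, hv2] at hu2
      exact huv (Option.some.inj hu2).symm
    have hR : R (q u).1 (q v).1 = decide ((H cc).Adj u v) := by
      rw [hu2, hv2]
    let S0 : Option (W cc) × La × Set La → Option (W cc) × La × Set La → Prop := fun e q =>
      (lev e.2.1 < lev q.2.1 ∧ (q.2.1 ∈ e.2.2 ↔ R e.1 q.1 = true) ∧
        D' e.2.1 e.2.2 q.2.1 = cc (R e.1 q.1)) ∨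
      (lev q.2.1 < lev e.2.1 ∧ (e.2.1 ∈ q.2.2 ↔ R q.1 e.1 = true) ∧
        D' q.2.1 q.2.2 e.2.1 = cc (R q.1 e.1))
    have : Std.Symm S0 := ⟨fun a b h => h.symm⟩
    have hpw : out.Pairwise S0 := ho3.imp (fun h => Or.inl h)
    have h : S0 (q u) (q v) := hpw.forall hu1 hv1 hne
    rcases h with h | h
    · left
      rw [hR] at h
      simpa using h
    · exact Or.inr h.1
  have hdone := (hall t).2.2.1 P' ⟨?_, ?_⟩ ?_ ?_ v0 _ (hnew v0 hv0)
  · rw [hv0n] at hdone
    exact absurd hdone (by simp)
  · intro u v x hx huv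
    have hv : b cc v ≤ k0 := by
      by_cases hv : b cc v = k0
      · exact hv.le
      · rw [hold v hv] at hx
        exact (hsome v x hx).le
    by_cases hu : b cc u = k0
    · exact ⟨_, hnew u hu⟩
    · rw [hold u hu]
      exact hk0 u (lt_of_le_of_ne (huv.trans hv) hu)
  · intro u v x y hx hy huv
    by_cases hu : b cc u = k0
    · rw [hnew u hu] at hx
      obtain rfl := Option.some.inj hx
      by_cases hv : b cc v = k0
      · rw [hnew v hv] at hy
        obtain rfl := Option.some.inj hy
        rcases hnn u v hu hv huv with ⟨h1, h2, h3⟩ | h1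
        · have h4 := hj (hlex _ _ h1)
          refine ⟨h4.ne, fun _ => ⟨(hxi _ _).trans h2, fun s hs => ?_⟩⟩
          have h5 : s = decide ((H cc).Adj u v) := by
            rw [Bool.eq_iff_iff, hs]
            simp
          rw [h5]
          exact h3
        · have h4 := hj (hlex _ _ h1)
          exact ⟨h4.ne', fun h5 => absurd h4 (not_lt.2 h5.le)⟩
      · rw [hold v hv] at hy
        have h4 := ((hall (q u).2.1).2.1 v y hy).1
        exact ⟨h4.ne', fun h5 => absurd h4 (not_lt.2 h5.le)⟩
    · rw [hold u hu] at hx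
      by_cases hv : b cc v = k0
      · rw [hnew v hv] at hy
        obtain rfl := Option.some.inj hy
        obtain ⟨h4, h5, h6⟩ := (hall (q v).2.1).2.1 u x hx
        have h7 := hbit u v (by rw [hv]; exact hsome u x hx)
        exact ⟨h4.ne, fun _ => ⟨h5.trans h7.symm, fun s hs => h6 s (hs.trans h7)⟩⟩
      · rw [hold v hv] at hy
        exact (hall t).1.2 u v x y hx hy huv
  · intro v x hx
    by_cases hv : b cc v = k0
    · rw [hnew v hv] at hx
      obtain rfl := Option.some.inj hx
      obtain ⟨hv1, hv2⟩ := hq v hv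
      obtain ⟨h1, h2, h3⟩ := ho2 (q v) hv1 (none, t) (by simp)
      have hR : R (q v).1 none = decide (Bit (H cc) (b cc) v) := by
        rw [hv2]
      rw [hR] at h2 h3
      refine ⟨hj (hlex _ _ h1), (hxi _ _).trans (h2.trans (by simp)), fun s hs => ?_⟩
      have h5 : s = decide (Bit (H cc) (b cc) v) := by
        rw [Bool.eq_iff_iff, hs]
        simp
      rw [h5]
      exact h3
    · rw [hold v hv] at hx
      exact (hall t).2.1 v x hx
  · intro v x hx
    rw [hold v (hsome v x hx).ne]
    exact hx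

end Pool.Agent.RKH
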