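import Pool.Agent.RKH.ER

/-!
The combinatorial core: for every type C of colours and every ordinal o there is a levelled set
La such that for every colouring D there are two colours for which the empty list is o-good
(new elements are put on lower and lower levels).
-/

set_option autoImplicit false

open Cardinal Order

namespace Pool.Agent.RKH

universe u

section

variable {La C A : Type u} [LinearOrder A]

/-- c, e realize the pattern s over the list l with the colours cc. -/
def Fits (D : La → Set La → La → C) (lev : La → A) (cc : Bool → C) (c : La) (e : Set La)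
    (l : List La) (s : List Bool) : Prop :=
  List.Forall₂ (fun a b => lev c < lev a ∧ (a ∈ e ↔ b = true) ∧ D c e a = cc b) l s

/-- goodness of lists -/
def LGood (D : La → Set La → La → C) (lev : La → A) (cc : Bool → C) (o : Ordinal.{u})
    (l : List La) : Prop :=
  ∀ (o' : Ordinal.{u}) (_ : o' < o) (s : List Bool), s.length = l.length →
    ∃ (c : La) (e : Set La), Fits D lev cc c e l s ∧ LGood D lev cc o' (c :: l)
termination_by o
decreasing_by assumption

theorem lgood_iff (D : La → Set La → La → C) (lev : La → A) (cc : Bool → C) (o : Ordinal.{u})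
    (l : List La) : LGood D lev cc o l ↔
      ∀ (o' : Ordinal.{u}) (_ : o' < o) (s : List Bool), s.length = l.length →
        ∃ (c : La) (e : Set La), Fits D lev cc c e l s ∧ LGood D lev cc o' (c :: l) := by
  rw [LGood]

end

section

variable {A B P DD : Type u} [LinearOrder A] [LinearOrder B]

/-- the transversal of the chain tau given by t -/
def trv (x : B → A → Bool → P) (tau : List (A × B)) (t : List Bool) : List P :=
  List.zipWith (fun w b => x w.2 w.1 b) tau t

/-- columns increase, labels decrease -/
def Chn (tau : List (A × B)) : Prop := tau.Pairwise (fun v w => v.1 < w.1 ∧ w.2 < v.2)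

theorem trv_homog (x : B → A → Bool → P) (lev : P → A) (dd : List P → DD)
    (hlev : ∀ be al t, lev (x be al t) = al)
    (hom : ∀ be al (F : List P) (_ : ∀ p ∈ F, lev p < al)
        (Y : List (B × A × Bool)) (_ : ∀ y ∈ Y, y.1 < be),
        dd (F ++ x be al false :: Y.map (fun y => x y.1 y.2.1 y.2.2)) =
        dd (F ++ x be al true :: Y.map (fun y => x y.1 y.2.1 y.2.2)))
    (tau : List (A × B)) (htau : Chn tau) :
    ∀ (F : List P) (_ : ∀ p ∈ F, ∀ w ∈ tau, lev p < w.1) (s t : List Bool)
      (_ : s.length = tau.length) (_ : t.length = tau.length),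
      dd (F ++ trv x tau s) = dd (F ++ trv x tau t) := by
  induction tau with
  | nil =>
    intro F _ s t hs ht
    simp [trv]
  | cons w tau ih =>
    intro F hF s t hs ht
    obtain ⟨b, s', rfl⟩ : ∃ b s', s = b :: s' := by
      cases s with
      | nil => simp at hs
      | cons b s' => exact ⟨b, s', rfl⟩
    obtain ⟨b', t', rfl⟩ : ∃ b s', t = b :: s' := by
      cases t with
      | nil => simp at ht
      | cons b s' => exact ⟨b, s', rfl⟩
    simp only [List.length_cons, Nat.add_right_cancel_iff] at hs ht
    have hc : Chn tau := (List.pairwise_cons.mp htau).2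
    have hw : ∀ v ∈ tau, w.1 < v.1 ∧ v.2 < w.2 := (List.pairwise_cons.mp htau).1
    have e1 : ∀ b : Bool, ∀ s' : List Bool,
        trv x (w :: tau) (b :: s') = x w.2 w.1 b :: trv x tau s' := fun _ _ => rfl
    -- change the first coordinate
    have e2 : ∀ b b' : Bool, dd (F ++ x w.2 w.1 b :: trv x tau s') =
        dd (F ++ x w.2 w.1 b' :: trv x tau s') := by
      have h1 : ∀ (tau : List (A × B)) (s' : List Bool), trv x tau s' =
          (List.zipWith (fun (w : A × B) (b : Bool) => (w.2, w.1, b)) tau s').map
            (fun y => x y.1 y.2.1 y.2.2) := by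
        intro tau s'
        rw [List.map_zipWith]
        rfl
      have h2 : ∀ (tau : List (A × B)) (s' : List Bool) (be : B) (_ : ∀ v ∈ tau, v.2 < be),
          ∀ y ∈ List.zipWith (fun (w : A × B) (b : Bool) => (w.2, w.1, b)) tau s',
            y.1 < be := by
        intro tau
        induction tau with
        | nil =>
          intro s' be _ y hy
          simp at hy
        | cons v tau ih2 =>
          intro s' be hv y hy
          cases s' with
          | nil => simp at hy
          | cons b s' =>
            simp only [List.zipWith_cons_cons, List.mem_cons] at hy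
            rcases hy with rfl | hy
            · exact hv v (by simp)
            · exact ih2 s' be (fun v' hv' => hv v' (by simp [hv'])) y hy
      have h3 := hom w.2 w.1 F (fun p hp => hF p hp w (by simp))
        (List.zipWith (fun (w : A × B) (b : Bool) => (w.2, w.1, b)) tau s')
        (h2 tau s' w.2 (fun v hv => (hw v hv).2))
      rw [← h1] at h3
      intro b b'
      cases b <;> cases b'
      · rfl
      · exact h3
      · exact h3.symm
      · rfl
    rw [e1, e1, e2 b b']
    have h4 := ih hc (F ++ [x w.2 w.1 b']) (by
      intro p hp v hv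
      rw [List.mem_append] at hp
      rcases hp with hp | hp
      · exact hF p hp v (by simp [hv])
      · simp only [List.mem_singleton] at hp
        rw [hp, hlev]
        exact (hw v hv).1) s' t' hs ht
    simpa using h4

end

theorem core (C : Type u) (o : Ordinal.{u}) :
    ∃ (A : Type u) (_ : LinearOrder A) (_ : WellFoundedLT A) (La : Type u) (lev : La → A),
      ∀ D : La → Set La → La → C, ∃ cc : Bool → C, LGood D lev cc o [] := by
  classical
  obtain ⟨B, iB1, iB2, hB⟩ := er_embed (Bool → C) (ULift.{u} ℕ)
  obtain ⟨A, iA1, iA2, hA⟩ := er_embed (B → B → Bool → C) (succ o).ToType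
  let DD : Type u := Set ((Bool → C) × List Bool × o.ToType)
  refine ⟨A, iA1, iA2, Pos A B DD, levP A B DD, ?_⟩
  intro D
  -- the data
  let dd : List (Pos A B DD) → DD := fun l => {q | q.2.1.length = l.length ∧ ∃ c e,
    Fits D (levP A B DD) q.1 c e l q.2.1 ∧ LGood D (levP A B DD) q.1 q.2.2.toOrd.1 (c :: l)}
  obtain ⟨x, hx1, hx2, hx3⟩ := two_point A B DD dd
  let E : Set (Pos A B DD) := {y | ∃ al be, y = x be al true}
  have hE : ∀ be al t, x be al t ∈ E ↔ t = true := by
    intro be al t
    constructor
    · rintro ⟨al', be', h⟩
      have h1 : al = al' := by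
        rw [← (hx1 be al t).1, ← (hx1 be' al' true).1, h]
      have h2 : be = be' := by
        rw [← (hx1 be al t).2, ← (hx1 be' al' true).2, h]
      subst h1 h2
      cases t with
      | true => rfl
      | false => exact absurd h (hx2 be al)
    · rintro rfl
      exact ⟨al, be, rfl⟩
  -- Ramsey
  obtain ⟨ioA, kA, hioA, hkA⟩ := hA (fun al al' => fun be be' => fun t =>
    D (x be al false) E (x be' al' t))
  obtain ⟨ioB, cc, hioB, hcc⟩ := hB (fun be' be => kA be be')
  refine ⟨cc, ?_⟩
  let sA : Set.Iio (succ o) → A := fun si => ioA (Ordinal.ToType.mk si)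
  have hsA : StrictMono sA := hioA.comp Ordinal.ToType.mk.strictMono
  let sB : ℕ → B := fun n => ioB ⟨n⟩
  have hsB : StrictMono sB := fun a b h => hioB (by simpa using h)
  let gr : List (Set.Iio (succ o) × ℕ) → List (A × B) := fun tau =>
    tau.map (fun w => (sA w.1, sB w.2))
  have main : ∀ (si : Ordinal.{u}) (_ : si ≤ o) (tau : List (Set.Iio (succ o) × ℕ))
      (_ : tau.Pairwise (fun v w => v.1 < w.1 ∧ w.2 < v.2))
      (_ : ∀ w ∈ tau, si ≤ w.1.1) (t : List Bool) (_ : t.length = tau.length),
      LGood D (levP A B DD) cc si (trv x (gr tau) t) := by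
    intro si
    induction si using WellFoundedLT.induction with
    | ind si ih =>
      intro hsi tau htau hmin t ht
      rw [lgood_iff]
      intro si' hsi' s hs
      have hlen : ∀ (tau : List (Set.Iio (succ o) × ℕ)) (t : List Bool)
          (_ : t.length = tau.length), (trv x (gr tau) t).length = tau.length := by
        intro tau t ht
        simp [trv, gr, ht]
      rw [hlen tau t ht] at hs
      have hsi'o : si' < o := lt_of_lt_of_le hsi' hsi
      let si0 : Set.Iio (succ o) := ⟨si', lt_succ_iff.mpr hsi'o.le⟩
      obtain ⟨n0, hn0⟩ : ∃ n0 : ℕ, ∀ w ∈ tau, w.2 < n0 := by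
        refine ⟨(tau.map Prod.snd).sum + 1, ?_⟩
        intro w hw
        have : w.2 ≤ (tau.map Prod.snd).sum :=
          List.single_le_sum (by simp) _ (List.mem_map.mpr ⟨w, hw, rfl⟩)
        omega
      have hch : ((si0, n0) :: tau).Pairwise (fun v w => v.1 < w.1 ∧ w.2 < v.2) := by
        rw [List.pairwise_cons]
        refine ⟨?_, htau⟩
        intro w hw
        refine ⟨?_, hn0 w hw⟩
        change si' < w.1.1
        exact lt_of_lt_of_le hsi' (hmin w hw)
      have hgood : LGood D (levP A B DD) cc si' (trv x (gr ((si0, n0) :: tau)) (false :: s)) := by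
        refine ih si' hsi' hsi'o.le _ hch ?_ _ ?_
        · intro w hw
          rw [List.mem_cons] at hw
          rcases hw with rfl | hw
          · exact le_refl _
          · exact hsi'.le.trans (hmin w hw)
        · simp [hs]
      have hfit : Fits D (levP A B DD) cc (x (sB n0) (sA si0) false) E (trv x (gr tau) s) s := by
        have aux : ∀ (tau : List (Set.Iio (succ o) × ℕ)) (s : List Bool)
            (_ : s.length = tau.length) (_ : ∀ w ∈ tau, si0 < w.1 ∧ w.2 < n0),
            Fits D (levP A B DD) cc (x (sB n0) (sA si0) false) E (trv x (gr tau) s) s := by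
          intro tau
          induction tau with
          | nil =>
            intro s hs _
            have : s = [] := List.length_eq_zero_iff.mp hs
            subst this
            exact List.Forall₂.nil
          | cons w tau ih2 =>
            intro s hs hw
            cases s with
            | nil => simp at hs
            | cons b s =>
              have hw1 := hw w (by simp)
              refine List.Forall₂.cons ⟨?_, ?_, ?_⟩ (ih2 s (by simpa using hs)
                (fun v hv => hw v (by simp [hv])))
              · rw [(hx1 _ _ _).1, (hx1 _ _ _).1]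
                exact hsA hw1.1
              · exact hE _ _ _
              · have h1 : (fun be be' => fun t =>
                    D (x be (sA si0) false) E (x be' (sA w.1) t)) = kA :=
                  hkA (Ordinal.ToType.mk si0) (Ordinal.ToType.mk w.1)
                    (Ordinal.ToType.mk.strictMono hw1.1)
                have h2 : kA (sB n0) (sB w.2) = cc :=
                  hcc ⟨w.2⟩ ⟨n0⟩ (by simpa using hw1.2)
                have h3 := congrFun (congrFun (congrFun h1 (sB n0)) (sB w.2)) b
                rw [h2] at h3
                exact h3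
        exact aux tau s hs (fun w hw => (List.pairwise_cons.mp hch).1 w hw)
      -- transfer
      have hgr : Chn (gr tau) := by
        unfold Chn
        rw [List.pairwise_map]
        exact htau.imp (fun h => ⟨hsA h.1, hsB h.2⟩)
      have hhom := trv_homog x (levP A B DD) dd (fun be al t => (hx1 be al t).1) hx3 (gr tau)
        hgr [] (by simp) s t (by simp [gr, hs]) (by simp [gr, ht])
      rw [List.nil_append, List.nil_append] at hhom
      have hmem : (cc, s, Ordinal.ToType.mk (⟨si', hsi'o⟩ : Set.Iio o)) ∈
          dd (trv x (gr tau) s) := by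
        refine ⟨?_, x (sB n0) (sA si0) false, E, hfit, ?_⟩
        · rw [hlen tau s hs]
          exact hs
        · have e3 : (Ordinal.ToType.mk (⟨si', hsi'o⟩ : Set.Iio o)).toOrd.1 = si' := by simp
          rw [e3]
          exact hgood
      rw [hhom] at hmem
      obtain ⟨-, c, e, h1, h2⟩ := hmem
      refine ⟨c, e, h1, ?_⟩
      simpa using h2
  have h := main o le_rfl [] List.Pairwise.nil (by simp) [] rfl
  exact h

end Pool.Agent.RKH
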