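import Mathlib
import Pool.Agent.RKH.Two

/-!
Erdos-Rado for pairs in the form of an embedding: for every type K of colours and every well
ordered R there is a well ordered X such that every K-colouring of the pairs of X is constant
on the pairs of a copy of R. (Adapted from Pool.Agent.EH.End and Pool.Agent.EH.Sier.)
-/

set_option autoImplicit false

open Cardinal Order

namespace Pool.Agent.RKH

universe u

theorem bdd_of_small {k : Cardinal.{u}} (hk : ℵ₀ ≤ k) (S : Set (succ k).ord.ToType)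
    (hS : #S ≤ k) : ∃ z, ∀ s ∈ S, s < z := by
  by_contra hcon
  push Not at hcon
  have hcof : IsCofinal S := by
    intro a
    obtain ⟨s, hs, h⟩ := hcon a
    exact ⟨s, hs, h⟩
  have h1 := Order.cof_le hcof
  rw [Ordinal.cof_toType, (isRegular_succ hk).cof_ord] at h1
  exact absurd (h1.trans hS) (not_le.mpr (lt_succ k))

theorem mk_Iio_le (k : Cardinal.{u}) (b : (succ k).ord.ToType) : #(Set.Iio b) ≤ k := by
  have h1 : #(Set.Iio b) < succ k := by
    have h2 := Cardinal.mk_Iio_lt b (by simp)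
    simpa using h2
  exact lt_succ_iff.mp h1

/-- arities -/
def Ar (R K : Type u) : Option (R → K) → Type u
  | none => PEmpty
  | some _ => R

theorem card_W (R K : Type u) (hR : ℵ₀ ≤ #R) (hK : #K ≤ 2 ^ #R) :
    #(WType (Ar R K)) ≤ 2 ^ #R := by
  have hinf : ℵ₀ ≤ (2 : Cardinal) ^ #R := hR.trans (cantor _).le
  have hRR : #R * #R = #R := mul_eq_self hR
  have hTp : #(R → K) ≤ 2 ^ #R := by
    calc #(R → K) = #K ^ #R := by simp
      _ ≤ (2 ^ #R) ^ #R := power_le_power_right hK
      _ = 2 ^ #R := by rw [← power_mul, hRR]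
  have hOpt : #(Option (R → K)) ≤ 2 ^ #R := by
    rw [mk_option]
    exact add_le_of_le hinf hTp (one_le_aleph0.trans hinf)
  apply WType.cardinalMk_le_of_le
  refine (sum_le_sum _ (fun _ => 2 ^ #R) ?_).trans ?_
  · intro a
    cases a with
    | none =>
      change (2 ^ #R) ^ #PEmpty ≤ _
      simp only [mk_eq_zero, power_zero]
      exact one_le_aleph0.trans hinf
    | some t =>
      change (2 ^ #R) ^ #R ≤ _
      rw [← power_mul, hRR]
  · rw [sum_const', mul_comm]
    exact mul_le_of_le hinf le_rfl hOpt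

/-- closure under types -/
theorem exists_closed {R X K : Type u} [LinearOrder X] (x0 : X) (hR : ℵ₀ ≤ #R)
    (hK : #K ≤ 2 ^ #R) (Q : X → X → K) : ∃ C : Set X, #C ≤ 2 ^ #R ∧ x0 ∈ C ∧
      ∀ (sg : R → X) (y : X), (∀ r, sg r ∈ C) → (∀ r, sg r < y) →
        ∃ x ∈ C, (∀ r, sg r < x) ∧ ∀ r, Q (sg r) x = Q (sg r) y := by
  classical
  let ev : (Σ a : Option (R → K), Ar R K a → X) → X := fun p =>
    match p with
    | ⟨none, _⟩ => x0
    | ⟨some t, sg⟩ => if h : ∃ x, (∀ r : R, sg r < x) ∧ ∀ r : R, Q (sg r) x = t r then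
        h.choose else x0
  let E : WType (Ar R K) → X := WType.elim X ev
  refine ⟨Set.range E, ?_, ?_, ?_⟩
  · exact mk_range_le.trans (card_W R K hR hK)
  · exact ⟨WType.mk none (fun e => e.elim), rfl⟩
  · intro sg y hsg hy
    choose t ht using hsg
    let T : R → K := fun r => Q (sg r) y
    have hT : ∃ x, (∀ r : R, sg r < x) ∧ ∀ r : R, Q (sg r) x = T r :=
      ⟨y, hy, fun _ => rfl⟩
    have hE : E (WType.mk (some T) t) = hT.choose := by
      have e1 : E (WType.mk (some T) t) = ev ⟨some T, fun r : R => E (t r)⟩ := rfl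
      have e2 : (fun r : R => E (t r)) = sg := funext ht
      have e3 : ev ⟨some T, fun r : R => E (t r)⟩ = ev ⟨some T, sg⟩ := by
        rw [e2]
      have e4 : ev ⟨some T, sg⟩ = (if h : ∃ x, (∀ r : R, sg r < x) ∧
        ∀ r : R, Q (sg r) x = T r then h.choose else x0) := rfl
      rw [e1, e3, e4, dif_pos hT]
    refine ⟨_, ⟨WType.mk (some T) t, rfl⟩, ?_⟩
    rw [hE]
    exact hT.choose_spec

theorem end_homog {R X K : Type u} [LinearOrder X] (hR : ℵ₀ ≤ #R) (hK : #K ≤ 2 ^ #R)
    (hb : ∀ S : Set X, #S ≤ 2 ^ #R → ∃ z, ∀ s ∈ S, s < z) (Q : X → X → K) :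
    ∃ (z : X) (x : (succ #R).ord.ToType → X), (StrictMono x) ∧
      ∀ xi eta, eta < xi → Q (x eta) (x xi) = Q (x eta) z := by
  classical
  obtain ⟨x0, -⟩ := hb ∅ (by simp)
  obtain ⟨C, hC, hx0, hcl⟩ := exists_closed x0 hR hK Q
  obtain ⟨z, hz⟩ := hb C hC
  have hrec := exists_rec (Th := (succ #R).ord.ToType) (C := C) (· < ·) wellFounded_lt
    (fun xi g c => ∀ eta (h : eta < xi), ((g eta h : C) : X) < c ∧
      Q (g eta h) c = Q (g eta h) z) ?_
  · obtain ⟨x, hx⟩ := hrec
    refine ⟨z, fun xi => x xi, ?_, ?_⟩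
    · intro a b hab
      exact (hx b a hab).1
    · intro xi eta h
      exact (hx xi eta h).2
  · intro xi g
    by_cases hne : Nonempty (Set.Iio xi)
    · have hle : #(Set.Iio xi) ≤ #R := mk_Iio_le _ xi
      obtain ⟨emb⟩ := (Cardinal.le_def _ _).mp hle
      have hsurj : Function.Surjective (Function.invFun emb) :=
        Function.invFun_surjective emb.injective
      let s : R → Set.Iio xi := Function.invFun emb
      obtain ⟨x, hxC, hx1, hx2⟩ := hcl (fun r => (g (s r).1 (s r).2 : C)) z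
        (fun r => (g (s r).1 (s r).2).2) (fun r => hz _ (g (s r).1 (s r).2).2)
      refine ⟨⟨x, hxC⟩, ?_⟩
      intro eta h
      obtain ⟨r, hr⟩ := hsurj ⟨eta, h⟩
      have hr1 : s r = ⟨eta, h⟩ := hr
      constructor
      · have := hx1 r
        simp only [hr1] at this
        exact this
      · have := hx2 r
        simp only [hr1] at this
        exact this
    · refine ⟨⟨x0, hx0⟩, ?_⟩
      intro eta h
      exact absurd ⟨⟨eta, h⟩⟩ hne

theorem er_embed (K R : Type u) [LinearOrder R] [WellFoundedLT R] :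
    ∃ (X : Type u) (_ : LinearOrder X) (_ : WellFoundedLT X),
      ∀ Q : X → X → K, ∃ (io : R → X) (k : K), StrictMono io ∧
        ∀ a b, a < b → Q (io a) (io b) = k := by
  classical
  -- a type of size max (#K, #R, aleph0)
  let M : Type u := ULift.{u} ℕ ⊕ (K ⊕ R)
  have hM : ℵ₀ ≤ #M := by
    have h0 : #(ULift.{u} ℕ) ≤ #M := mk_le_of_injective (f := Sum.inl) Sum.inl_injective
    have h1 : #(ULift.{u} ℕ) = ℵ₀ := by simp
    rw [← h1]
    exact h0
  have hKM : #K ≤ #M :=
    mk_le_of_injective (f := fun k => Sum.inr (Sum.inl k))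
      (Sum.inr_injective.comp Sum.inl_injective)
  have hRM : #R ≤ #M :=
    mk_le_of_injective (f := fun k => Sum.inr (Sum.inr k))
      (Sum.inr_injective.comp Sum.inr_injective)
  have hP : ℵ₀ ≤ (2 : Cardinal.{u}) ^ #M := hM.trans (cantor _).le
  refine ⟨(succ ((2 : Cardinal.{u}) ^ #M)).ord.ToType, inferInstance, inferInstance, ?_⟩
  intro Q
  obtain ⟨z, x, hmono, hx⟩ := end_homog (R := M) (K := K) hM (hKM.trans (cantor _).le)
    (fun S hS => bdd_of_small hP S hS) Q
  -- pigeonhole
  obtain ⟨m, hm⟩ := infinite_pigeonhole_card_lt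
    (fun xi : (succ #M).ord.ToType => (Sum.inr (Sum.inl (Q (x xi) z)) : M)) (by
      have h1 : #((succ #M).ord.ToType) = succ #M := by simp
      rw [h1]
      exact lt_succ _) (by
      have h1 : #((succ #M).ord.ToType) = succ #M := by simp
      rw [h1]
      exact hM.trans (le_succ _))
  set J := (fun xi : (succ #M).ord.ToType => (Sum.inr (Sum.inl (Q (x xi) z)) : M)) ⁻¹' {m}
    with hJ
  have hne : J.Nonempty := by
    rw [← Set.nonempty_coe_sort, ← mk_ne_zero_iff]
    exact (zero_le.trans_lt hm).ne'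
  obtain ⟨xi0, hxi0⟩ := hne
  have hk : ∀ xi ∈ J, Q (x xi) z = Q (x xi0) z := by
    intro xi hxi
    have h1 : (Sum.inr (Sum.inl (Q (x xi) z)) : M) = m := hxi
    have h2 : (Sum.inr (Sum.inl (Q (x xi0) z)) : M) = m := hxi0
    have h3 := h1.trans h2.symm
    exact Sum.inl_injective (Sum.inr_injective h3)
  have hemb : Nonempty (R ≤i J) := by
    rcases InitialSeg.total (· < · : R → R → Prop) (· < · : J → J → Prop) with h | h
    · exact ⟨h⟩
    · exfalso
      have h1 : #J ≤ #R := mk_le_of_injective h.injective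
      exact absurd (h1.trans hRM) (not_le.mpr hm)
  obtain ⟨em⟩ := hemb
  refine ⟨fun r => x (em r).1, Q (x xi0) z, ?_, ?_⟩
  · intro a b hab
    exact hmono (em.strictMono hab)
  · intro a b hab
    have h1 : (em a).1 < (em b).1 := em.strictMono hab
    rw [hx _ _ h1]
    exact hk _ (em a).2

end Pool.Agent.RKH
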