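import Pool.Agent.RKH.Uni

/-!
The system of prepared vertices (mechanism of Pool.Agent.EH.Main): for every colouring kap of
the ordered pairs of vertices of the universal graph there are vertices i c e such that, for
c' of lower level than c, the adjacency of i c' e' and i c e is decided by c in e', and
the colour does not depend on e.
-/

set_option autoImplicit false

namespace Pool.Agent.RKH

universe u

inductive Idx (La C : Type u) : Type u
  | nil : Idx La C
  | mk (c : La) (e : Set La) (w : La → Set La → Idx La C) (q : La → Set La → C) : Idx La C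

variable {La C A : Type u}

def eOf : Idx La C → Set La
  | .nil => ∅
  | .mk _ e _ _ => e

def tOf (lev : La → A) : Idx La C → WithBot A
  | .nil => ⊥
  | .mk c _ _ _ => lev c

section

variable {VV : Type u} [LinearOrder A]

/-- The condition on the vertex chosen at index j, given the earlier choices u. -/
def Cond (lev : La → A) (Ad : VV → VV → Prop) (kap : VV → VV → C)
    (r : Idx La C → Idx La C → Prop) (j : Idx La C) (u : ∀ j', r j' j → Option VV) (y : VV) :
    Prop :=
  ∃ c e w q, j = Idx.mk c e w q ∧
    (∀ j' (h : r j' j) y', u j' h = some y' → y ≠ y' ∧ (Ad y' y ↔ c ∈ eOf j')) ∧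
    ∀ c' e', lev c' < lev c → ∃ (h : r (w c' e') j) (y' : VV),
      u (w c' e') h = some y' ∧ kap y' y = q c' e'

open Classical in
/-- the chosen vertices -/
noncomputable def vv (lev : La → A) (Ad : VV → VV → Prop) (kap : VV → VV → C)
    {r : Idx La C → Idx La C → Prop} (wf : WellFounded r) : Idx La C → Option VV :=
  wf.fix (fun j u => if h : ∃ y, Cond lev Ad kap r j u y then some h.choose else none)

theorem vv_spec (lev : La → A) (Ad : VV → VV → Prop) (kap : VV → VV → C)
    {r : Idx La C → Idx La C → Prop} (wf : WellFounded r) (j : Idx La C) (y : VV)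
    (h : vv lev Ad kap wf j = some y) :
    Cond lev Ad kap r j (fun j' _ => vv lev Ad kap wf j') y := by
  unfold vv at h
  rw [WellFounded.fix_eq] at h
  split_ifs at h with h1
  have h2 := h1.choose_spec
  cases h
  exact h2

theorem vv_exists (lev : La → A) (Ad : VV → VV → Prop) (kap : VV → VV → C)
    {r : Idx La C → Idx La C → Prop} (wf : WellFounded r) (j : Idx La C) (y : VV)
    (h : Cond lev Ad kap r j (fun j' _ => vv lev Ad kap wf j') y) :
    ∃ y', vv lev Ad kap wf j = some y' := by
  unfold vv at h ⊢
  rw [WellFounded.fix_eq]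
  rw [dif_pos ⟨y, h⟩]
  exact ⟨_, rfl⟩

end

/-- The vertex set of the graph. -/
abbrev VU (La C : Type u) : Type u := UV (Idx La C)

/-- The graph. -/
abbrev GU (La C : Type u) : SimpleGraph (VU La C) := UG (Idx La C)

theorem exists_system [LinearOrder A] [WellFoundedLT A] (lev : La → A)
    (kap : VU La C → VU La C → C) :
    ∃ (i : La → Set La → VU La C) (D : La → Set La → La → C),
      ∀ c' e' c e, lev c' < lev c → i c' e' ≠ i c e ∧
        ((GU La C).Adj (i c' e') (i c e) ↔ c ∈ e') ∧ kap (i c' e') (i c e) = D c' e' c := by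
  classical
  -- the well order on the index type
  obtain ⟨lo, hlo⟩ := exists_wellFoundedLT (Idx La C)
  let key : Idx La C → (WithBot A) ×ₗ (Idx La C) := fun j => toLex (tOf lev j, j)
  have hkey : Function.Injective key := by
    intro a b h
    have := congrArg (fun p => (ofLex p).2) h
    exact this
  let r : Idx La C → Idx La C → Prop := fun j' j => key j' < key j
  have wf : WellFounded r := InvImage.wf key wellFounded_lt
  have htri : ∀ j j', r j j' ∨ j = j' ∨ r j' j := by
    intro j j'
    rcases lt_trichotomy (key j) (key j') with h | h | h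
    · exact Or.inl h
    · exact Or.inr (Or.inl (hkey h))
    · exact Or.inr (Or.inr h)
  set v := vv lev (GU La C).Adj kap wf with hv
  have spec := vv_spec lev (GU La C).Adj kap wf
  have hinj : ∀ j j' y, v j = some y → v j' = some y → j = j' := by
    intro j j' y h1 h2
    rcases htri j j' with h | h | h
    · obtain ⟨c, e, w, q, -, h3, -⟩ := spec j' y h2
      exact absurd rfl (h3 j h y h1).1
    · exact h
    · obtain ⟨c, e, w, q, -, h3, -⟩ := spec j y h1
      exact absurd rfl (h3 j' h y h2).1
  -- the vertices delta_a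
  have hdel : ∀ a : La, ∃ d, ∀ j y, v j = some y → d ≠ y ∧ ((GU La C).Adj y d ↔ a ∈ eOf j) := by
    intro a
    let f : Idx La C → VU La C := fun j => (v j).getD UV.leaf
    let S : Set (Idx La C) := {j | (∃ y, v j = some y) ∧ a ∈ eOf j}
    obtain ⟨d, hd1, hd2⟩ := exists_ext f S
    refine ⟨d, ?_⟩
    intro j y hj
    have e1 : f j = y := by simp [f, hj]
    refine ⟨by rw [← e1]; exact hd1 j, ?_⟩
    rw [← e1]
    refine (hd2 j).trans ?_
    constructor
    · rintro ⟨i, ⟨⟨y1, h1⟩, a1⟩, h2⟩
      have e2 : f i = y1 := by simp [f, h1]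
      rw [e1, e2] at h2
      subst h2
      rwa [hinj j i y hj h1]
    · intro h
      exact ⟨j, ⟨⟨y, hj⟩, h⟩, rfl⟩
  choose de hde using hdel
  -- the true indices
  have wfl : WellFounded (fun a b : La => lev a < lev b) := InvImage.wf lev wellFounded_lt
  let dv : Idx La C → VU La C := fun j => (v j).getD UV.leaf
  let step : ∀ c : La, (∀ c', lev c' < lev c → Set La → Idx La C) → Set La → Idx La C :=
    fun c u e => Idx.mk c e
      (fun c' e' => if h : lev c' < lev c then u c' h e' else Idx.nil)
      (fun c' e' => if h : lev c' < lev c then kap (dv (u c' h e')) (de c)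
        else kap UV.leaf UV.leaf)
  let tr : La → Set La → Idx La C := wfl.fix step
  have htr : ∀ c e, tr c e = Idx.mk c e
      (fun c' e' => if lev c' < lev c then tr c' e' else Idx.nil)
      (fun c' e' => if lev c' < lev c then kap (dv (tr c' e')) (de c)
        else kap UV.leaf UV.leaf) := by
    intro c e
    have h1 : tr c = step c (fun c' _ => tr c') := wfl.fix_eq step c
    rw [h1]
    simp only [step, dite_eq_ite]
  have hlt : ∀ c' e' c e, lev c' < lev c → r (tr c' e') (tr c e) := by
    intro c' e' c e h
    change toLex (tOf lev (tr c' e'), tr c' e') < toLex (tOf lev (tr c e), tr c e)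
    rw [Prod.Lex.toLex_lt_toLex]
    left
    rw [htr c' e', htr c e]
    exact WithBot.coe_lt_coe.mpr h
  have heOf : ∀ c e, eOf (tr c e) = e := by
    intro c e
    rw [htr c e]
    rfl
  have hdef : ∀ c, ∀ e, ∃ y, v (tr c e) = some y := by
    intro c
    induction c using wfl.induction with
    | _ c ih =>
      intro e
      refine vv_exists lev (GU La C).Adj kap wf (tr c e) (de c) ?_
      refine ⟨c, e, _, _, htr c e, ?_, ?_⟩
      · intro j' _ y' hy'
        exact hde c j' y' hy'
      · intro c' e' h
        obtain ⟨y', hy'⟩ := ih c' h e'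
        simp only [if_pos h]
        refine ⟨hlt c' e' c e h, y', hy', ?_⟩
        have : dv (tr c' e') = y' := by simp [dv, hy']
        rw [this]
  choose i hi using hdef
  refine ⟨i, fun c' e' c => kap (i c' e') (de c), ?_⟩
  intro c' e' c e h
  obtain ⟨c1, e1, w1, q1, hj, h3, h4⟩ := spec (tr c e) (i c e) (hi c e)
  have hj2 := hj
  rw [htr c e] at hj2
  obtain ⟨rfl, rfl, rfl, rfl⟩ := Idx.mk.inj hj2
  obtain ⟨h5, h6⟩ := h3 (tr c' e') (hlt c' e' c e h) (i c' e') (hi c' e')
  refine ⟨h5.symm, ?_, ?_⟩
  · rw [h6, heOf]
  · obtain ⟨h7, y', h8, h9⟩ := h4 c' e' h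
    simp only [if_pos h] at h8 h9
    have h10 : y' = i c' e' := Option.some.inj (h8.symm.trans (hi c' e'))
    subst h10
    rw [h9]
    have : dv (tr c' e') = i c' e' := by simp [dv, hi c' e']
    rw [this]

end Pool.Agent.RKH
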