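import Mathlib

/-!
A universal graph: every I-indexed family of vertices f and every S, a set of indices, has a
vertex different from all f j and adjacent exactly to those f j which lie in f '' S.
-/

set_option autoImplicit false

namespace Pool.Agent.RKH

universe u

inductive UV (I : Type u) : Type u
  | leaf : UV I
  | node (S : Set I) (f : I → UV I) : UV I

variable {I : Type u}

/-- The down-neighbourhood. -/
def dn : UV I → Set (UV I)
  | .leaf => ∅
  | .node S f => {x | ∃ i ∈ S, x = f i}

/-- Immediate subterm. -/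
def Sub (x y : UV I) : Prop := ∃ S f i, y = UV.node S f ∧ x = f i

theorem sub_wf : WellFounded (Sub : UV I → UV I → Prop) := by
  refine ⟨fun y => ?_⟩
  induction y with
  | leaf =>
    refine ⟨_, ?_⟩
    rintro x ⟨S, f, i, h, -⟩
    cases h
  | node S f ih =>
    refine ⟨_, ?_⟩
    rintro x ⟨S', f', i, h, rfl⟩
    cases h
    exact ih i

theorem sub_of_mem_dn {x y : UV I} (h : x ∈ dn y) : Sub x y := by
  cases y with
  | leaf => simp [dn] at h
  | node S f =>
    obtain ⟨i, hi, rfl⟩ := h
    exact ⟨S, f, i, rfl, rfl⟩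

/-- The graph. -/
def UG (I : Type u) : SimpleGraph (UV I) where
  Adj x y := x ∈ dn y ∨ y ∈ dn x
  symm := ⟨fun _ _ h => h.symm⟩
  loopless := ⟨fun x h => by
    have : Sub x x := h.elim sub_of_mem_dn sub_of_mem_dn
    exact (sub_wf.irrefl.irrefl x) this⟩

/-- Extension property. -/
theorem exists_ext (f : I → UV I) (S : Set I) :
    ∃ y, (∀ j, y ≠ f j) ∧ ∀ j, (UG I).Adj (f j) y ↔ ∃ i ∈ S, f j = f i := by
  refine ⟨UV.node S f, ?_, ?_⟩
  · intro j h
    have : Sub (UV.node S f) (UV.node S f) := ⟨S, f, j, rfl, h⟩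
    exact (sub_wf.irrefl.irrefl _) this
  · intro j
    constructor
    · rintro (h | h)
      · exact h
      · exfalso
        have h1 : Sub (UV.node S f) (f j) := sub_of_mem_dn h
        have h2 : Sub (f j) (UV.node S f) := ⟨S, f, j, rfl, rfl⟩
        exact sub_wf.asymmetric _ _ h1 h2
    · intro h
      exact Or.inl h

end Pool.Agent.RKH
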